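import Mathlib

/-!
# MP_ca9574_an, Q2 (and hence Q1): a function in `A^∞(B)` with natural boundary on every affine disc

`f z = ∑ⱼ exp (-mⱼ) ⟨z, dⱼ⟩ ^ (mⱼ²)` with `mⱼ = 2 ^ (3 ^ j)` and every tail of `(dⱼ)` dense in the
closed ball.
-/

namespace Pool.Agent.Results.MP_ca9574_an.NaturalBoundary

open Filter Topology Metric

/-- `f ∈ A^∞(B)`: `f` is continuous on the closed unit ball, holomorphic in the open unit ball
`B` of `ℂⁿ`, and for every `k` the `k`-th complex Fréchet derivative of `f` (i.e. all partial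
derivatives of order `k`) extends from `B` continuously to the closed ball. -/
def AInfty {n : ℕ} (f : EuclideanSpace ℂ (Fin n) → ℂ) : Prop :=
  ContinuousOn f (closedBall 0 1) ∧ DifferentiableOn ℂ f (ball 0 1) ∧
  ∀ k : ℕ, ∃ g : EuclideanSpace ℂ (Fin n) →
      ContinuousMultilinearMap ℂ (fun _ : Fin k => EuclideanSpace ℂ (Fin n)) ℂ,
    ContinuousOn g (closedBall 0 1) ∧ ∀ z ∈ ball 0 1, g z = iteratedFDeriv ℂ k f z

/-- The unit circle is the natural boundary of `g` (a function on the unit disc): for no point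
`τ` of the circle is there an open disc containing `τ` and a holomorphic function on it which
agrees with `g` on the part of that disc inside the unit disc. -/
def HasNaturalBoundary (g : ℂ → ℂ) : Prop :=
  ∀ τ : ℂ, ‖τ‖ = 1 → ¬ ∃ (c : ℂ) (r : ℝ) (h : ℂ → ℂ), τ ∈ ball c r ∧
    DifferentiableOn ℂ h (ball c r) ∧ ∀ x ∈ ball c r ∩ ball 0 1, h x = g x

/-- Property (NB): for every nonconstant affine map `Φ(x) = a + x b` which maps the unit circle
into the unit sphere, `f ∘ Φ` has the unit circle as its natural boundary. -/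
def NB {n : ℕ} (f : EuclideanSpace ℂ (Fin n) → ℂ) : Prop :=
  ∀ a b : EuclideanSpace ℂ (Fin n), b ≠ 0 → (∀ x : ℂ, ‖x‖ = 1 → ‖a + x • b‖ = 1) →
    HasNaturalBoundary (fun x => f (a + x • b))

/-- the frequencies -/
def mm (j : ℕ) : ℕ := 2 ^ (3 ^ j)

lemma mm_succ (j : ℕ) : mm (j + 1) = mm j ^ 3 := by
  unfold mm
  rw [pow_succ, pow_mul]

lemma two_le_mm (j : ℕ) : 2 ≤ mm j := by
  unfold mm
  calc 2 = 2 ^ 1 := by norm_num
    _ ≤ 2 ^ (3 ^ j) := Nat.pow_le_pow_right (by norm_num) (Nat.one_le_pow _ _ (by norm_num))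

lemma mm_strictMono : StrictMono mm := by
  refine strictMono_nat_of_lt_succ fun j => ?_
  rw [mm_succ]
  have h := two_le_mm j
  nlinarith [pow_pos (show 0 < mm j by omega) 2]

lemma mm_add (k i : ℕ) : mm k + i ≤ mm (k + i) := by
  induction i with
  | zero => simp
  | succ i ih =>
    have := mm_strictMono (Nat.lt_succ_self (k + i))
    have h2 : mm (k + (i + 1)) = mm (k + i).succ := rfl
    omega

/-- exponential weights -/
noncomputable def wt (j : ℕ) : ℝ := Real.exp (-(mm j : ℝ))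

lemma wt_pos (j : ℕ) : 0 < wt j := Real.exp_pos _

lemma wt_add (k i : ℕ) : wt (i + k) ≤ wt k * (1 / 2) ^ i := by
  have h1 : wt (i + k) ≤ Real.exp (-(mm k : ℝ) + i * (-1)) := by
    unfold wt
    apply Real.exp_le_exp.2
    have := mm_add k i
    rw [add_comm k i] at this
    have h2 : ((mm k + i : ℕ) : ℝ) ≤ mm (i + k) := by exact_mod_cast this
    push_cast at h2
    linarith
  rw [Real.exp_add, Real.exp_nat_mul] at h1
  refine h1.trans ?_
  unfold wt
  refine mul_le_mul_of_nonneg_left ?_ (Real.exp_pos _).le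
  refine pow_le_pow_left₀ (Real.exp_pos _).le ?_ i
  rw [Real.exp_neg, inv_eq_one_div]
  refine one_div_le_one_div_of_le (by norm_num) ?_
  have := Real.add_one_le_exp (1 : ℝ)
  linarith

lemma summable_wt (k : ℕ) : Summable (fun j => wt j * ((mm j : ℝ) ^ 2) ^ k) := by
  have h := (Real.summable_pow_mul_exp_neg_nat_mul (2 * k) one_pos).comp_injective
    mm_strictMono.injective
  refine h.congr fun j => ?_
  simp only [Function.comp, wt]
  rw [← pow_mul, mul_comm]
  simp

variable {E : Type*} [NormedAddCommGroup E] [InnerProductSpace ℂ E]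

/-- the blocks -/
noncomputable def P (d : ℕ → E) (j : ℕ) (z : E) : ℂ :=
  (wt j : ℂ) * (innerSL ℂ (d j) z) ^ (mm j ^ 2)

lemma contDiff_P (d : ℕ → E) (j : ℕ) (k : ℕ∞) : ContDiff ℂ k (P d j) := by
  unfold P
  exact contDiff_const.mul ((innerSL ℂ (d j)).contDiff.pow _)

lemma norm_P_le (d : ℕ → E) (hd : ∀ j, ‖d j‖ ≤ 1) (j : ℕ) (z : E) {R : ℝ} (hz : ‖z‖ ≤ R) :
    ‖P d j z‖ ≤ wt j * R ^ (mm j ^ 2) := by
  unfold P
  rw [norm_mul, norm_pow, Complex.norm_real, Real.norm_of_nonneg (wt_pos j).le]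
  refine mul_le_mul_of_nonneg_left ?_ (wt_pos j).le
  refine pow_le_pow_left₀ (norm_nonneg _) ?_ _
  rw [innerSL_apply_apply]
  refine (norm_inner_le_norm _ _).trans ?_
  nlinarith [hd j, norm_nonneg z, norm_nonneg (d j)]

lemma iter_P (d : ℕ → E) (hd : ∀ j, ‖d j‖ ≤ 1) (j k : ℕ) (z : E) (hz : ‖z‖ ≤ 1) :
    ‖iteratedFDeriv ℂ k (P d j) z‖ ≤ wt j * ((mm j : ℝ) ^ 2) ^ k := by
  set L := innerSL ℂ (d j) with hL
  set φ : ℂ → ℂ := fun t => (wt j : ℂ) * t ^ (mm j ^ 2) with hφ
  have hcomp : P d j = φ ∘ L := rfl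
  have hφc : ContDiff ℂ k φ := contDiff_const.mul (contDiff_id.pow _)
  rw [hcomp, L.iteratedFDeriv_comp_right hφc z le_rfl]
  refine (ContinuousMultilinearMap.norm_compContinuousLinearMap_le _ _).trans ?_
  have hLn : ‖L‖ ≤ 1 := by
    rw [hL, innerSL_apply_norm]
    exact hd j
  have hprod : ∏ _i : Fin k, ‖L‖ ≤ 1 := Finset.prod_le_one (fun _ _ => norm_nonneg _)
    (fun _ _ => hLn)
  have hLz : ‖L z‖ ≤ 1 := (L.le_opNorm z).trans (by nlinarith [norm_nonneg z, norm_nonneg L])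
  have h1 : ‖iteratedFDeriv ℂ k φ (L z)‖ ≤ wt j * ((mm j : ℝ) ^ 2) ^ k := by
    rw [norm_iteratedFDeriv_eq_norm_iteratedDeriv, hφ, iteratedDeriv_const_mul_field]
    rw [iteratedDeriv_eq_iterate, iter_deriv_pow]
    rw [norm_mul, norm_mul, norm_pow, Complex.norm_real, Real.norm_of_nonneg (wt_pos j).le]
    refine mul_le_mul_of_nonneg_left ?_ (wt_pos j).le
    have h2 : ‖∏ i ∈ Finset.range k, (((mm j ^ 2 : ℕ) : ℂ) - (i : ℂ))‖ ≤
        ((mm j : ℝ) ^ 2) ^ k := by
      by_cases hk : mm j ^ 2 < k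
      · rw [Finset.prod_eq_zero (Finset.mem_range.2 hk) (sub_self _), norm_zero]
        positivity
      · rw [norm_prod]
        have : ∀ i ∈ Finset.range k, ‖((mm j ^ 2 : ℕ) : ℂ) - (i : ℂ)‖ ≤ (mm j : ℝ) ^ 2 := by
          intro i hi
          have hi' : i ≤ mm j ^ 2 := by
            have := Finset.mem_range.1 hi
            omega
          rw [← Nat.cast_sub hi', Complex.norm_natCast]
          have : mm j ^ 2 - i ≤ mm j ^ 2 := Nat.sub_le _ _
          exact_mod_cast this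
        refine (Finset.prod_le_prod (fun _ _ => norm_nonneg _) this).trans ?_
        rw [Finset.prod_const, Finset.card_range]
    have h3 : ‖L z‖ ^ (mm j ^ 2 - k) ≤ 1 := pow_le_one₀ (norm_nonneg _) hLz
    calc _ ≤ ((mm j : ℝ) ^ 2) ^ k * 1 := mul_le_mul h2 h3 (by positivity) (by positivity)
      _ = _ := mul_one _
  calc _ ≤ (wt j * ((mm j : ℝ) ^ 2) ^ k) * 1 :=
        mul_le_mul h1 hprod (Finset.prod_nonneg fun _ _ => norm_nonneg _)
          (mul_nonneg (wt_pos j).le (by positivity))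
    _ = _ := mul_one _

/-- the function -/
noncomputable def F (d : ℕ → E) (z : E) : ℂ := ∑' j, P d j z

lemma iter_F (d : ℕ → E) (hd : ∀ j, ‖d j‖ ≤ 1) (k : ℕ) : ∀ z ∈ ball (0 : E) 1,
    iteratedFDeriv ℂ k (F d) z = ∑' j, iteratedFDeriv ℂ k (P d j) z := by
  induction k with
  | zero =>
    intro z hz
    simp_rw [iteratedFDeriv_zero_eq_comp]
    exact (continuousMultilinearCurryFin0 ℂ E ℂ).symm.toContinuousLinearEquiv.map_tsum
  | succ k ih =>
    intro z hz
    have heq : iteratedFDeriv ℂ k (F d) =ᶠ[𝓝 z] fun y => ∑' j, iteratedFDeriv ℂ k (P d j) y := by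
      filter_upwards [isOpen_ball.mem_nhds hz] with y hy using ih y hy
    have hder : HasFDerivAt (fun y => ∑' j, iteratedFDeriv ℂ k (P d j) y)
        (∑' j, fderiv ℂ (iteratedFDeriv ℂ k (P d j)) z) z := by
      refine hasFDerivAt_tsum_of_isPreconnected (summable_wt (k + 1)) isOpen_ball
        (convex_ball (0 : E) 1).isPreconnected ?_ ?_ (mem_ball_self one_pos) ?_ hz
      · intro j x _
        have hc : ContDiff ℂ (k + 1 : ℕ) (P d j) := contDiff_P d j ((k + 1 : ℕ) : ℕ∞)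
        exact ((hc.differentiable_iteratedFDeriv (by
          exact_mod_cast Nat.lt_succ_self k)).differentiableAt).hasFDerivAt
      · intro j x hx
        rw [fderiv_iteratedFDeriv, Function.comp_apply, LinearIsometryEquiv.norm_map]
        exact iter_P d hd j (k + 1) x (by rw [mem_ball_zero_iff] at hx; exact hx.le)
      · exact Summable.of_norm_bounded (summable_wt k) fun j => iter_P d hd j k 0 (by simp)
    rw [iteratedFDeriv_succ_eq_comp_left, Function.comp_apply, heq.fderiv_eq, hder.fderiv]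
    simp_rw [iteratedFDeriv_succ_eq_comp_left]
    exact (continuousMultilinearCurryLeftEquiv ℂ
        (fun _ : Fin (k + 1) => E) ℂ).symm.toContinuousLinearEquiv.map_tsum

lemma summable_P (d : ℕ → E) (hd : ∀ j, ‖d j‖ ≤ 1) {z : E} (hz : ‖z‖ ≤ 1) :
    Summable (fun j => P d j z) := by
  refine Summable.of_norm_bounded (summable_wt 0) fun j => ?_
  have := norm_P_le d hd j z hz
  simpa using this

lemma continuousOn_F (d : ℕ → E) (hd : ∀ j, ‖d j‖ ≤ 1) : ContinuousOn (F d) (closedBall 0 1) := by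
  refine continuousOn_tsum (fun j => (contDiff_P d j 0).continuous.continuousOn)
    (summable_wt 0) ?_
  intro j z hz
  rw [mem_closedBall_zero_iff] at hz
  have := norm_P_le d hd j z hz
  simpa using this

lemma differentiableOn_F (d : ℕ → E) (hd : ∀ j, ‖d j‖ ≤ 1) :
    DifferentiableOn ℂ (F d) (ball 0 1) := by
  intro z hz
  have hder : HasFDerivAt (F d) (∑' j, fderiv ℂ (P d j) z) z := by
    refine hasFDerivAt_tsum_of_isPreconnected (summable_wt 1) isOpen_ball
      (convex_ball (0 : E) 1).isPreconnected ?_ ?_ (mem_ball_self one_pos) ?_ hz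
    · intro j x _
      exact ((contDiff_P d j 1).differentiable (by simp)).differentiableAt.hasFDerivAt
    · intro j x hx
      have := iter_P d hd j 1 x (by rw [mem_ball_zero_iff] at hx; exact hx.le)
      rwa [norm_iteratedFDeriv_one] at this
    · exact summable_P d hd (by simp)
  exact hder.differentiableAt.differentiableWithinAt

lemma tail_le (d : ℕ → E) (hd : ∀ j, ‖d j‖ ≤ 1) (k : ℕ) {z : E} (hz : ‖z‖ ≤ 1) :
    ‖F d z - ∑ j ∈ Finset.range k, P d j z‖ ≤ 2 * wt k := by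
  have hs := summable_P d hd hz
  have h1 := hs.sum_add_tsum_nat_add k
  have h2 : F d z - ∑ j ∈ Finset.range k, P d j z = ∑' j, P d (j + k) z := by
    unfold F
    rw [← h1]
    ring
  rw [h2]
  have hg : HasSum (fun i : ℕ => wt k * (1 / 2 : ℝ) ^ i) (wt k * 2) := by
    have := (hasSum_geometric_of_lt_one (by norm_num : (0 : ℝ) ≤ 1 / 2) (by norm_num)).mul_left
      (wt k)
    norm_num at this ⊢
    exact this
  rw [mul_comm]
  refine tsum_of_norm_bounded hg fun i => ?_
  have := norm_P_le d hd (i + k) z hz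
  rw [one_pow, mul_one] at this
  exact this.trans (wt_add k i)

lemma head_le (d : ℕ → E) (hd : ∀ j, ‖d j‖ ≤ 1) (k : ℕ) {z : E} (hz : ‖z‖ ≤ 2) :
    ‖∑ j ∈ Finset.range (k + 1), P d j z‖ ≤ 2 * 2 ^ (mm k ^ 2) := by
  refine (norm_sum_le _ _).trans ?_
  have h1 : ∀ j ∈ Finset.range (k + 1), ‖P d j z‖ ≤ (1 / 2) ^ j * 2 ^ (mm k ^ 2) := by
    intro j hj
    have hjk : j ≤ k := by
      have := Finset.mem_range.1 hj
      omega
    refine (norm_P_le d hd j z hz).trans ?_
    have h2 : wt j ≤ (1 / 2) ^ j := by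
      have := wt_add 0 j
      simp only [add_zero] at this
      refine this.trans ?_
      have h0 : wt 0 ≤ 1 := by
        unfold wt
        rw [Real.exp_le_one_iff]
        simp
      have : (0 : ℝ) ≤ (1 / 2) ^ j := by positivity
      nlinarith
    have h3 : (2 : ℝ) ^ (mm j ^ 2) ≤ 2 ^ (mm k ^ 2) :=
      pow_le_pow_right₀ (by norm_num) (Nat.pow_le_pow_left (mm_strictMono.monotone hjk) 2)
    exact mul_le_mul h2 h3 (by positivity) (by positivity)
  refine (Finset.sum_le_sum h1).trans ?_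
  rw [← Finset.sum_mul]
  refine mul_le_mul_of_nonneg_right ?_ (by positivity)
  have hg := hasSum_geometric_of_lt_one (by norm_num : (0 : ℝ) ≤ 1 / 2) (by norm_num)
  have := sum_le_hasSum (Finset.range (k + 1)) (fun i _ => by positivity) hg
  norm_num at this ⊢
  exact this

/-! ### A three circles estimate -/

lemma three_circles {g : ℂ → ℂ} {c u : ℂ} {r δ M : ℝ} (hr : 0 < r) (hu : ‖u‖ = 1)
    (hg : ∀ x ∈ closedBall c (8 * r), DifferentiableAt ℂ g x)
    (hδ : ∀ x ∈ closedBall c r, ‖g x‖ ≤ δ) (hM : ∀ x ∈ closedBall c (8 * r), ‖g x‖ ≤ M)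
    (hδ0 : 0 ≤ δ) (hM0 : 0 ≤ M) : ‖g (c + 4 * r * u)‖ ^ 3 ≤ δ * M ^ 2 := by
  set φ : ℂ → ℂ := fun z => c + r * u * Complex.exp (z * Real.log 8) with hφ
  have hφn : ∀ z : ℂ, ‖φ z - c‖ = r * Real.exp (z.re * Real.log 8) := by
    intro z
    rw [hφ]
    simp only [add_sub_cancel_left, norm_mul, Complex.norm_real, Complex.norm_exp, hu,
      Complex.re_mul_ofReal, mul_one]
    rw [Real.norm_of_nonneg hr.le]
  have hφm : ∀ z : ℂ, z.re ≤ 1 → φ z ∈ closedBall c (8 * r) := by
    intro z hz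
    rw [mem_closedBall, dist_eq_norm, hφn]
    have h1 : Real.exp (z.re * Real.log 8) ≤ Real.exp (1 * Real.log 8) := by
      apply Real.exp_le_exp.2
      exact mul_le_mul_of_nonneg_right hz (Real.log_nonneg (by norm_num))
    rw [one_mul, Real.exp_log (by norm_num)] at h1
    nlinarith
  have hφd : Differentiable ℂ φ := by
    rw [hφ]
    fun_prop
  have hmain := Complex.HadamardThreeLines.norm_le_interp_of_mem_verticalClosedStrip₀₁'
    (g ∘ φ) (z := ((2 / 3 : ℝ) : ℂ)) (a := δ) (b := M) ?_ ?_ ?_ ?_ ?_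
  · have he : φ ((2 / 3 : ℝ) : ℂ) = c + 4 * r * u := by
      rw [hφ]
      simp only
      have : ((2 / 3 : ℝ) : ℂ) * (Real.log 8 : ℂ) = ((Real.log 4 : ℝ) : ℂ) := by
        rw [← Complex.ofReal_mul]
        congr 1
        have h8 : Real.log 8 = 3 * Real.log 2 := by
          rw [show (8 : ℝ) = 2 ^ 3 by norm_num, Real.log_pow]
          norm_num
        have h4 : Real.log 4 = 2 * Real.log 2 := by
          rw [show (4 : ℝ) = 2 ^ 2 by norm_num, Real.log_pow]
          norm_num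
        rw [h8, h4]
        ring
      rw [this, ← Complex.ofReal_exp, Real.exp_log (by norm_num)]
      push_cast
      ring
    rw [Function.comp_apply, he, Complex.ofReal_re] at hmain
    calc ‖g (c + 4 * r * u)‖ ^ 3 ≤ (δ ^ (1 - 2 / 3 : ℝ) * M ^ (2 / 3 : ℝ)) ^ 3 :=
          pow_le_pow_left₀ (norm_nonneg _) hmain 3
      _ = δ * M ^ 2 := by
          rw [mul_pow, ← Real.rpow_natCast, ← Real.rpow_natCast, ← Real.rpow_mul hδ0,
            ← Real.rpow_mul hM0]
          norm_num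
  · rw [Complex.HadamardThreeLines.verticalClosedStrip, Set.mem_preimage, Complex.ofReal_re]
    norm_num
  · refine DifferentiableOn.diffContOnCl ?_
    intro z hz
    refine (DifferentiableAt.comp z (hg _ (hφm z ?_)) hφd.differentiableAt).differentiableWithinAt
    rw [Complex.HadamardThreeLines.verticalStrip, Complex.closure_preimage_re] at hz
    rw [closure_Ioo (by norm_num)] at hz
    exact hz.2
  · refine ⟨M, ?_⟩
    rintro _ ⟨z, hz, rfl⟩
    exact hM _ (hφm z hz.2)
  · intro z hz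
    have hz' : z.re = 0 := hz
    refine hδ _ ?_
    rw [mem_closedBall, dist_eq_norm, hφn, hz']
    simp
  · intro z hz
    have hz' : z.re = 1 := hz
    exact hM _ (hφm z hz'.le)

/-! ### Affine discs -/

lemma norm_disc {a b : E} (h : ∀ x : ℂ, ‖x‖ = 1 → ‖a + x • b‖ = 1) (x : ℂ) :
    ‖a + x • b‖ ^ 2 = 1 + (‖x‖ ^ 2 - 1) * ‖b‖ ^ 2 := by
  have key : ∀ x : ℂ, ‖a + x • b‖ ^ 2 = ‖a‖ ^ 2 + 2 * (inner ℂ a (x • b)).re +
      ‖x‖ ^ 2 * ‖b‖ ^ 2 := by
    intro x
    have := @norm_add_sq ℂ E _ _ _ a (x • b)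
    rw [norm_smul, mul_pow] at this
    exact this
  have hunit : ∀ x : ℂ, ‖x‖ = 1 → (inner ℂ a (x • b)).re = 0 ∧ ‖a‖ ^ 2 + ‖b‖ ^ 2 = 1 := by
    intro x hx
    have h1 := key x
    have h2 := key (-x)
    rw [h x hx, hx] at h1
    rw [h (-x) (by rwa [norm_neg]), norm_neg, hx, neg_smul, inner_neg_right] at h2
    simp only [Complex.neg_re] at h2
    constructor <;> linarith
  by_cases hx0 : x = 0
  · have h1 := (hunit 1 (by simp)).2
    rw [key x, hx0]
    simp
    linarith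
  · have hxn : (‖x‖ : ℂ) ≠ 0 := by exact_mod_cast (norm_ne_zero_iff.2 hx0)
    have hu : ‖x / ‖x‖‖ = 1 := by
      rw [norm_div]
      simp [norm_ne_zero_iff.2 hx0]
    obtain ⟨h1, h2⟩ := hunit (x / ‖x‖) hu
    have h3 : x = (‖x‖ : ℂ) * (x / ‖x‖) := by
      field_simp
    have h4 : (inner ℂ a (x • b)).re = 0 := by
      rw [h3, mul_smul, inner_smul_right, Complex.re_ofReal_mul, h1, mul_zero]
    rw [key x, h4]
    linarith

lemma decay (H : ℝ) : Tendsto (fun k : ℕ => 2 * wt (k + 1) * (H + 2 * 2 ^ (mm k ^ 2)) ^ 2)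
    atTop (𝓝 0) := by
  have hmm : Tendsto (fun k => (mm k : ℝ)) atTop atTop :=
    tendsto_natCast_atTop_atTop.comp mm_strictMono.tendsto_atTop
  have h1 : Tendsto (fun k : ℕ => 2 * (|H| + 2) ^ 2 * Real.exp (-(mm k : ℝ))) atTop (𝓝 0) := by
    have := (Real.tendsto_exp_neg_atTop_nhds_zero.comp hmm).const_mul (2 * (|H| + 2) ^ 2)
    simpa using this
  refine squeeze_zero' (Eventually.of_forall fun k => ?_) ?_ h1
  · have := (wt_pos (k + 1)).le
    positivity
  · filter_upwards [eventually_ge_atTop 1] with k hk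
    have hm3 : (3 : ℝ) ≤ mm k := by
      have h0 := mm_add 0 k
      have h00 : mm 0 = 2 := by norm_num [mm]
      rw [zero_add] at h0
      have : 3 ≤ mm k := by omega
      exact_mod_cast this
    set m : ℝ := (mm k : ℝ) with hm
    have h2 : H + 2 * (2 : ℝ) ^ (mm k ^ 2) ≤ (|H| + 2) * 2 ^ (mm k ^ 2) := by
      have : (1 : ℝ) ≤ 2 ^ (mm k ^ 2) := one_le_pow₀ (by norm_num)
      nlinarith [le_abs_self H, abs_nonneg H]
    have h2' : -((|H| + 2) * 2 ^ (mm k ^ 2)) ≤ H + 2 * (2 : ℝ) ^ (mm k ^ 2) := by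
      have : (1 : ℝ) ≤ 2 ^ (mm k ^ 2) := one_le_pow₀ (by norm_num)
      nlinarith [neg_abs_le H, abs_nonneg H]
    have h3 : (H + 2 * (2 : ℝ) ^ (mm k ^ 2)) ^ 2 ≤ ((|H| + 2) * 2 ^ (mm k ^ 2)) ^ 2 :=
      sq_le_sq' h2' h2
    have h4 : (2 : ℝ) ^ (mm k ^ 2) ≤ Real.exp (m ^ 2) := by
      have h5 : (2 : ℝ) ≤ Real.exp 1 := by
        have := Real.add_one_le_exp (1 : ℝ)
        linarith
      calc (2 : ℝ) ^ (mm k ^ 2) ≤ (Real.exp 1) ^ (mm k ^ 2) :=
            pow_le_pow_left₀ (by norm_num) h5 _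
        _ = Real.exp (m ^ 2) := by
            rw [← Real.exp_nat_mul]
            congr 1
            rw [hm]
            push_cast
            ring
    have h6 : wt (k + 1) = Real.exp (-(m ^ 3)) := by
      unfold wt
      rw [mm_succ]
      push_cast
      rfl
    calc 2 * wt (k + 1) * (H + 2 * 2 ^ (mm k ^ 2)) ^ 2
        ≤ 2 * wt (k + 1) * ((|H| + 2) * Real.exp (m ^ 2)) ^ 2 := by
          refine mul_le_mul_of_nonneg_left (h3.trans ?_) (by have := (wt_pos (k + 1)).le; positivity)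
          exact pow_le_pow_left₀ (by positivity)
            (mul_le_mul_of_nonneg_left h4 (by positivity)) 2
      _ = 2 * (|H| + 2) ^ 2 * Real.exp (2 * m ^ 2 - m ^ 3) := by
          rw [h6, mul_pow, ← Real.exp_nat_mul]
          have : Real.exp (2 * m ^ 2 - m ^ 3) = Real.exp (-(m ^ 3)) * Real.exp (2 * m ^ 2) := by
            rw [← Real.exp_add]
            congr 1
            ring
          rw [this]
          push_cast
          ring
      _ ≤ 2 * (|H| + 2) ^ 2 * Real.exp (-m) := by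
          refine mul_le_mul_of_nonneg_left (Real.exp_le_exp.2 ?_) (by positivity)
          nlinarith [mul_self_nonneg m, mul_nonneg (show 0 ≤ m by linarith)
            (show 0 ≤ m - 3 by linarith), mul_nonneg (mul_nonneg (show 0 ≤ m by linarith)
            (show 0 ≤ m by linarith)) (show 0 ≤ m - 3 by linarith)]

lemma P_big (d : ℕ → E) (hdense : ∀ u : E, ‖u‖ = 1 → ∀ η : ℝ, 0 < η → ∀ J : ℕ,
    ∃ j, J ≤ j ∧ ‖d j - u‖ < η) {w : E} (hw : 1 < ‖w‖) (J : ℕ) : ∃ j, J ≤ j ∧ 1 ≤ ‖P d j w‖ := by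
  set ρ := ‖w‖ with hρ
  have hρ0 : 0 < ρ := by linarith
  set q : ℝ := (1 + ρ) / 2 with hq
  have hq1 : 1 < q := by
    rw [hq]
    linarith
  have hmm : Tendsto (fun k => (mm k : ℝ) * Real.log q) atTop atTop :=
    (tendsto_natCast_atTop_atTop.comp mm_strictMono.tendsto_atTop).atTop_mul_const
      (Real.log_pos hq1)
  obtain ⟨J', hJ'⟩ := (hmm.eventually_ge_atTop 1).exists_forall_of_atTop
  have hw0 : w ≠ 0 := by
    intro h
    rw [h, norm_zero] at hρ
    linarith
  have hρC : (ρ : ℂ) ≠ 0 := by exact_mod_cast hρ0.ne'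
  set u : E := (ρ : ℂ)⁻¹ • w with hu
  have hun : ‖u‖ = 1 := by
    rw [hu, norm_smul, norm_inv, Complex.norm_real, Real.norm_of_nonneg hρ0.le, ← hρ,
      inv_mul_cancel₀ hρ0.ne']
  obtain ⟨j, hj, hjd⟩ := hdense u hun ((ρ - 1) / (2 * ρ)) (by
    have : 0 < ρ - 1 := by linarith
    positivity) (max J J')
  refine ⟨j, (le_max_left _ _).trans hj, ?_⟩
  have hinner : q ≤ ‖innerSL ℂ (d j) w‖ := by
    have h1 : innerSL ℂ (d j) w = inner ℂ u w + inner ℂ (d j - u) w := by
      rw [innerSL_apply_apply, inner_sub_left]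
      ring
    have h2 : ‖inner ℂ u w‖ = ρ := by
      rw [hu, inner_smul_left, norm_mul, inner_self_eq_norm_sq_to_K]
      simp only [map_inv₀, Complex.conj_ofReal, norm_inv, norm_pow]
      rw [Complex.norm_real, Real.norm_of_nonneg hρ0.le]
      simp only [Complex.coe_algebraMap, Complex.norm_real, norm_norm]
      rw [← hρ]
      field_simp
    have h3 : ‖inner ℂ (d j - u) w‖ ≤ (ρ - 1) / 2 := by
      refine (norm_inner_le_norm _ _).trans ?_
      rw [← hρ]
      calc ‖d j - u‖ * ρ ≤ (ρ - 1) / (2 * ρ) * ρ := mul_le_mul_of_nonneg_right hjd.le hρ0.le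
        _ = (ρ - 1) / 2 := by field_simp
    have h4 : ‖inner ℂ u w‖ ≤ ‖innerSL ℂ (d j) w‖ + ‖inner ℂ (d j - u) w‖ := by
      have : inner ℂ u w = innerSL ℂ (d j) w - inner ℂ (d j - u) w := by
        rw [h1]
        ring
      rw [this]
      exact norm_sub_le _ _
    rw [h2] at h4
    rw [hq]
    linarith
  unfold P
  rw [norm_mul, norm_pow, Complex.norm_real, Real.norm_of_nonneg (wt_pos j).le]
  have hlog := hJ' j ((le_max_right _ _).trans hj)
  have h5 : Real.exp (mm j : ℝ) ≤ q ^ (mm j ^ 2) := by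
    have hq0 : 0 < q := by linarith
    rw [← Real.exp_log hq0, ← Real.exp_nat_mul]
    apply Real.exp_le_exp.2
    push_cast
    have : (0 : ℝ) ≤ mm j := Nat.cast_nonneg _
    nlinarith
  have h6 : q ^ (mm j ^ 2) ≤ ‖innerSL ℂ (d j) w‖ ^ (mm j ^ 2) :=
    pow_le_pow_left₀ (by linarith) hinner _
  calc (1 : ℝ) = wt j * Real.exp (mm j : ℝ) := by
        unfold wt
        rw [← Real.exp_add]
        simp
    _ ≤ wt j * ‖innerSL ℂ (d j) w‖ ^ (mm j ^ 2) :=
        mul_le_mul_of_nonneg_left (h5.trans h6) (wt_pos j).le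

lemma main (d : ℕ → E) (hd : ∀ j, ‖d j‖ ≤ 1) (hdense : ∀ u : E, ‖u‖ = 1 → ∀ η : ℝ, 0 < η →
    ∀ J : ℕ, ∃ j, J ≤ j ∧ ‖d j - u‖ < η) {a b : E} (hb : b ≠ 0)
    (hab : ∀ x : ℂ, ‖x‖ = 1 → ‖a + x • b‖ = 1) {τ : ℂ} (hτ : ‖τ‖ = 1) {r : ℝ} (hr : 0 < r)
    (hr1 : r ≤ 1) {h : ℂ → ℂ} (hh : DifferentiableOn ℂ h (ball τ r))
    (heq : ∀ x ∈ ball τ r ∩ ball 0 1, h x = F d (a + x • b)) : False := by
  have hnd := norm_disc hab
  have hb1 : ‖b‖ ^ 2 ≤ 1 := by
    have := hnd 0
    simp at this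
    nlinarith [sq_nonneg ‖a‖]
  -- the geometry of the circles
  set c : ℂ := (1 - r / 8 : ℝ) * τ with hc
  have hcτ : dist c τ = r / 8 := by
    rw [dist_eq_norm, hc]
    have : ((1 - r / 8 : ℝ) : ℂ) * τ - τ = ((-(r / 8) : ℝ) : ℂ) * τ := by
      push_cast
      ring
    rw [this, norm_mul, Complex.norm_real, hτ, mul_one, Real.norm_eq_abs, abs_neg,
      abs_of_pos (by positivity)]
  have hcn : ‖c‖ = 1 - r / 8 := by
    rw [hc, norm_mul, Complex.norm_real, hτ, mul_one, Real.norm_of_nonneg (by linarith)]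
  have hr16 : 0 < r / 16 := by positivity
  have hsub : closedBall c (8 * (r / 16)) ⊆ ball τ r := by
    intro x hx
    rw [mem_closedBall] at hx
    rw [mem_ball]
    have := dist_triangle x c τ
    linarith
  have hsub1 : closedBall c (r / 16) ⊆ ball 0 1 := by
    intro x hx
    rw [mem_closedBall] at hx
    rw [mem_ball_zero_iff]
    have : ‖x‖ ≤ ‖x - c‖ + ‖c‖ := by
      have := norm_add_le (x - c) c
      simpa using this
    rw [dist_eq_norm] at hx
    linarith
  have hsub2 : closedBall c (8 * (r / 16)) ⊆ closedBall 0 2 := by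
    intro x hx
    rw [mem_closedBall, dist_eq_norm] at hx
    rw [mem_closedBall_zero_iff]
    have : ‖x‖ ≤ ‖x - c‖ + ‖c‖ := by
      have := norm_add_le (x - c) c
      simpa using this
    linarith
  have hn1 : ∀ x : ℂ, ‖x‖ ≤ 1 → ‖a + x • b‖ ≤ 1 := by
    intro x hx
    have h1 := hnd x
    have h2 : ‖x‖ ^ 2 ≤ 1 := pow_le_one₀ (norm_nonneg _) hx
    have h3 : ‖a + x • b‖ ^ 2 ≤ 1 := by nlinarith [sq_nonneg ‖b‖]
    nlinarith [norm_nonneg (a + x • b)]
  have hn2 : ∀ x : ℂ, ‖x‖ ≤ 2 → ‖a + x • b‖ ≤ 2 := by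
    intro x hx
    have h1 := hnd x
    have h2 : ‖x‖ ^ 2 ≤ 4 := by nlinarith [norm_nonneg x]
    have h3 : ‖a + x • b‖ ^ 2 ≤ 4 := by nlinarith [sq_nonneg ‖b‖]
    nlinarith [norm_nonneg (a + x • b)]
  obtain ⟨H, hH⟩ := (isCompact_closedBall c (8 * (r / 16))).exists_bound_of_continuousOn
    (hh.continuousOn.mono hsub)
  have hH0 : 0 ≤ H := (norm_nonneg _).trans (hH c (mem_closedBall_self (by positivity)))
  set S : ℕ → ℂ → ℂ := fun k x => ∑ j ∈ Finset.range k, P d j (a + x • b) with hS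
  have hSd : ∀ k, Differentiable ℂ (S k) := by
    intro k
    rw [hS]
    refine Differentiable.fun_sum fun j _ => ?_
    exact ((contDiff_P d j 1).differentiable (by simp)).comp
      ((differentiable_const _).add (differentiable_id.smul_const b))
  set x₀ : ℂ := c + 4 * (r / 16 : ℝ) * τ with hx₀
  have hx₀e : x₀ = ((1 + r / 8 : ℝ) : ℂ) * τ := by
    rw [hx₀, hc]
    push_cast
    ring
  have hx₀n : 1 < ‖x₀‖ := by
    rw [hx₀e, norm_mul, Complex.norm_real, hτ, mul_one, Real.norm_of_nonneg (by linarith)]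
    linarith
  have hest : ∀ k, ‖h x₀ - S (k + 1) x₀‖ ^ 3 ≤
      2 * wt (k + 1) * (H + 2 * 2 ^ (mm k ^ 2)) ^ 2 := by
    intro k
    refine three_circles (g := fun x => h x - S (k + 1) x) (c := c) (u := τ) hr16 hτ
      ?_ ?_ ?_ ?_ ?_
    · intro x hx
      exact ((hh x (hsub hx)).differentiableAt (isOpen_ball.mem_nhds (hsub hx))).sub
        (hSd (k + 1)).differentiableAt
    · intro x hx
      have hx1 := hsub1 hx
      have hx2 : x ∈ ball τ r := hsub (closedBall_subset_closedBall (by linarith) hx)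
      rw [heq x ⟨hx2, hx1⟩]
      refine tail_le d hd (k + 1) (hn1 x ?_)
      rw [mem_ball_zero_iff] at hx1
      exact hx1.le
    · intro x hx
      have hx2 := hsub2 hx
      rw [mem_closedBall_zero_iff] at hx2
      refine (norm_sub_le _ _).trans (add_le_add (hH x hx) ?_)
      exact head_le d hd k (hn2 x hx2)
    · have := (wt_pos (k + 1)).le
      positivity
    · positivity
  have hlim : ∀ᶠ k in atTop, ‖h x₀ - S (k + 1) x₀‖ < 1 / 4 := by
    filter_upwards [(decay H).eventually (gt_mem_nhds (show (0 : ℝ) < 1 / 64 by norm_num))] with k hk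
    have h1 := (hest k).trans_lt hk
    by_contra hcon
    push Not at hcon
    have := pow_le_pow_left₀ (by norm_num) hcon 3
    norm_num at this h1
    linarith
  obtain ⟨K, hK⟩ := hlim.exists_forall_of_atTop
  have hw : 1 < ‖a + x₀ • b‖ := by
    have h1 := hnd x₀
    have h2 : 0 < ‖b‖ := norm_pos_iff.2 hb
    have h3 : 1 < ‖x₀‖ ^ 2 := one_lt_pow₀ hx₀n (by norm_num)
    have h4 : 1 < ‖a + x₀ • b‖ ^ 2 := by
      have : 0 < (‖x₀‖ ^ 2 - 1) * ‖b‖ ^ 2 := mul_pos (by linarith) (by positivity)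
      linarith
    by_contra hcon
    push Not at hcon
    have := pow_le_one₀ (norm_nonneg _) hcon (n := 2)
    linarith
  obtain ⟨j, hj, hPj⟩ := P_big d hdense hw (K + 1)
  obtain ⟨i, rfl⟩ : ∃ i, j = i + 1 := ⟨j - 1, by omega⟩
  have h1 := hK i (by omega)
  have h2 := hK (i + 1) (by omega)
  have h3 : P d (i + 1) (a + x₀ • b) = (h x₀ - S (i + 1) x₀) - (h x₀ - S (i + 1 + 1) x₀) := by
    rw [hS]
    simp only
    rw [Finset.sum_range_succ _ (i + 1)]
    ring
  rw [h3] at hPj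
  have := norm_sub_le (h x₀ - S (i + 1) x₀) (h x₀ - S (i + 1 + 1) x₀)
  linarith

/-- **Affirmative answer to Q2 (and Q1) of MP_ca9574_an.** For every `n` there is a function
`f ∈ A^∞(B)` on the unit ball of `ℂⁿ` such that `f ∘ Φ` has the unit circle as its natural
boundary for every nonconstant complex affine `Φ` mapping the unit circle into the unit sphere. -/
theorem result (n : ℕ) : ∃ f : EuclideanSpace ℂ (Fin n) → ℂ, AInfty f ∧ NB f := by
  have : Nonempty (closedBall (0 : EuclideanSpace ℂ (Fin n)) 1) := ⟨⟨0, by simp⟩⟩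
  obtain ⟨e, he⟩ := TopologicalSpace.exists_dense_seq (closedBall (0 : EuclideanSpace ℂ (Fin n)) 1)
  set d : ℕ → EuclideanSpace ℂ (Fin n) := fun j => e (Nat.unpair j).1 with hdd
  have hd : ∀ j, ‖d j‖ ≤ 1 := fun j => by
    have := (e (Nat.unpair j).1).2
    rwa [mem_closedBall_zero_iff] at this
  have hdense : ∀ u : EuclideanSpace ℂ (Fin n), ‖u‖ = 1 → ∀ η : ℝ, 0 < η → ∀ J : ℕ,
      ∃ j, J ≤ j ∧ ‖d j - u‖ < η := by
    intro u hu η hη J
    obtain ⟨i, hi⟩ := he.exists_dist_lt ⟨u, by simp [hu]⟩ hη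
    refine ⟨Nat.pair i J, Nat.right_le_pair i J, ?_⟩
    rw [hdd]
    simp only [Nat.unpair_pair]
    rw [dist_comm, Subtype.dist_eq, dist_eq_norm] at hi
    exact hi
  refine ⟨F d, ⟨continuousOn_F d hd, differentiableOn_F d hd, ?_⟩, ?_⟩
  · intro k
    refine ⟨fun z => ∑' j, iteratedFDeriv ℂ k (P d j) z, ?_, fun z hz => (iter_F d hd k z hz).symm⟩
    refine continuousOn_tsum (fun j => ?_) (summable_wt k) ?_
    · exact ((contDiff_P d j k).continuous_iteratedFDeriv le_rfl).continuousOn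
    · intro j z hz
      rw [mem_closedBall_zero_iff] at hz
      exact iter_P d hd j k z hz
  · intro a b hb hab τ hτ
    rintro ⟨c, r, h, hτc, hh, heq⟩
    rw [mem_ball] at hτc
    set s : ℝ := min 1 (r - dist τ c) with hs
    have hs0 : 0 < s := lt_min one_pos (by linarith)
    have hsub : ball τ s ⊆ ball c r := by
      intro x hx
      rw [mem_ball] at hx ⊢
      have h1 := dist_triangle x τ c
      have h2 : s ≤ r - dist τ c := min_le_right _ _
      linarith
    exact main d hd hdense hb hab hτ hs0 (min_le_left _ _) (hh.mono hsub)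
      (fun x hx => heq x ⟨hsub hx.1, hx.2⟩)

end Pool.Agent.Results.MP_ca9574_an.NaturalBoundary
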